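import Pool.Agent.Q41.GT.Stm2

/-!
# Project GT, job H1: algebraic solution of the functional equation
-/

set_option autoImplicit false

namespace Pool.Agent.Q166.GT.Alp

open Finset
open Pool.Agent.Q41.GT Pool.Agent.Q41.SU

theorem iter_per {X : Type} (f : X → X) (P : Finset X) (hf : ∀ z ∈ P, f z ∈ P) (z : X)
    (hz : z ∈ P) : f^[P.card + P.card.factorial] z = f^[P.card] z := by
  classical
  have hmem : ∀ j, f^[j] z ∈ P := by
    intro j
    induction j with
    | zero => exact hz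
    | succ j ih =>
      rw [Function.iterate_succ_apply']
      exact hf _ ih
  have h1 : ∃ i ∈ range (P.card + 1), ∃ j ∈ range (P.card + 1), i ≠ j ∧ f^[i] z = f^[j] z := by
    refine Finset.exists_ne_map_eq_of_card_lt_of_maps_to (t := P) ?_ fun i _ => hmem i
    rw [Finset.card_range]
    exact Nat.lt_succ_self _
  obtain ⟨i, j, hij, hj, he⟩ : ∃ i j, i < j ∧ j ≤ P.card ∧ f^[i] z = f^[j] z := by
    obtain ⟨i, hi, j, hj, hne, he⟩ := h1
    rw [Finset.mem_range] at hi hj
    rcases lt_or_gt_of_ne hne with h | h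
    · exact ⟨i, j, h, by omega, he⟩
    · exact ⟨j, i, h, by omega, he.symm⟩
  set t := j - i with ht
  have hper : ∀ s, i ≤ s → f^[s + t] z = f^[s] z := by
    intro s hs
    obtain ⟨r, rfl⟩ := Nat.exists_eq_add_of_le hs
    have e1 : i + r + t = r + j := by omega
    have e2 : i + r = r + i := by omega
    rw [e1, e2, Function.iterate_add_apply, Function.iterate_add_apply, he]
  have hper2 : ∀ a s, i ≤ s → f^[s + a * t] z = f^[s] z := by
    intro a
    induction a with
    | zero => intro s _; rw [zero_mul, add_zero]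
    | succ a ih =>
      intro s hs
      rw [show s + (a + 1) * t = (s + a * t) + t by ring, hper _ (by omega), ih s hs]
  obtain ⟨a, ha⟩ := Nat.dvd_factorial (show 0 < t by omega) (show t ≤ P.card by omega)
  rw [ha, mul_comm, hper2 a _ (by omega)]

theorem alg {K : Type} [Field K] (a : ℕ → K) (d m L : ℕ) (h0 : ∀ j, a j ≠ 0)
    (hper : a (m + L) = a m) (hd : 1 ≤ d ^ L) :
    ((∏ j ∈ range m, a j ^ (d ^ (m - j - 1) * (d ^ L - 1))) *
      ∏ j ∈ range L, a (m + j) ^ (d ^ (L - j - 1))) ^ d =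
    a 0 ^ (d ^ m * (d ^ L - 1)) * ((∏ j ∈ range m, a (j + 1) ^ (d ^ (m - j - 1) * (d ^ L - 1))) *
      ∏ j ∈ range L, a (m + j + 1) ^ (d ^ (L - j - 1))) := by
  set u : ℕ → K := fun j => a j ^ (d ^ (m - j) * (d ^ L - 1)) with hu
  set w : ℕ → K := fun j => a (m + j) ^ (d ^ (L - j)) with hw
  have e1 : (∏ j ∈ range m, a j ^ (d ^ (m - j - 1) * (d ^ L - 1))) ^ d = ∏ j ∈ range m, u j := by
    rw [← Finset.prod_pow]
    refine Finset.prod_congr rfl fun j hj => ?_
    rw [Finset.mem_range] at hj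
    rw [hu, ← pow_mul]
    simp only
    congr 1
    obtain ⟨r, hr⟩ : ∃ r, m - j = r + 1 := ⟨m - j - 1, by omega⟩
    rw [hr, Nat.add_sub_cancel, pow_succ]
    ring
  have e2 : (∏ j ∈ range L, a (m + j) ^ (d ^ (L - j - 1))) ^ d = ∏ j ∈ range L, w j := by
    rw [← Finset.prod_pow]
    refine Finset.prod_congr rfl fun j hj => ?_
    rw [Finset.mem_range] at hj
    rw [hw, ← pow_mul]
    simp only
    congr 1
    obtain ⟨r, hr⟩ : ∃ r, L - j = r + 1 := ⟨L - j - 1, by omega⟩
    rw [hr, Nat.add_sub_cancel, pow_succ]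
  have e3 : ∏ j ∈ range m, a (j + 1) ^ (d ^ (m - j - 1) * (d ^ L - 1)) =
      ∏ j ∈ range m, u (j + 1) := by
    refine Finset.prod_congr rfl fun j _ => ?_
    rw [hu]
    simp only
    rw [Nat.sub_sub]
  have e4 : ∏ j ∈ range L, a (m + j + 1) ^ (d ^ (L - j - 1)) = ∏ j ∈ range L, w (j + 1) := by
    refine Finset.prod_congr rfl fun j _ => ?_
    rw [hw]
    simp only
    rw [Nat.sub_sub]
    rfl
  have g1 : (∏ j ∈ range m, u j) * u m = (∏ j ∈ range m, u (j + 1)) * u 0 := by
    rw [← Finset.prod_range_succ, Finset.prod_range_succ']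
  have g2 : (∏ j ∈ range L, w j) * w L = (∏ j ∈ range L, w (j + 1)) * w 0 := by
    rw [← Finset.prod_range_succ, Finset.prod_range_succ']
  have g3 : u m * w L = w 0 := by
    rw [hu, hw]
    simp only
    rw [Nat.sub_self, Nat.sub_self, pow_zero, one_mul, pow_one, hper, add_zero, Nat.sub_zero,
      ← pow_succ]
    congr 1
    omega
  have g4 : u 0 = a 0 ^ (d ^ m * (d ^ L - 1)) := by
    rw [hu]
    simp only
    rw [Nat.sub_zero]
  have g5 : w 0 ≠ 0 := pow_ne_zero _ (h0 _)
  rw [mul_pow, e1, e2, e3, e4, ← g4]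
  apply mul_right_cancel₀ g5
  calc (∏ j ∈ range m, u j) * (∏ j ∈ range L, w j) * w 0
      = ((∏ j ∈ range m, u j) * u m) * ((∏ j ∈ range L, w j) * w L) := by rw [← g3]; ring
    _ = ((∏ j ∈ range m, u (j + 1)) * u 0) * ((∏ j ∈ range L, w (j + 1)) * w 0) := by
        rw [g1, g2]
    _ = _ := by ring

theorem t_alp : S_alp := by
  intro d hd n
  have hdL : 2 ≤ d ^ n.factorial := by
    calc 2 ≤ d := hd
      _ = d ^ 1 := (pow_one d).symm
      _ ≤ d ^ n.factorial := Nat.pow_le_pow_right (by omega) (Nat.factorial_pos n)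
  refine ⟨d ^ n * (d ^ n.factorial - 1), ?_, ?_⟩
  · have h1 : 1 ≤ d ^ n := Nat.one_le_pow _ _ (by omega)
    have h2 : 1 ≤ d ^ n.factorial - 1 := by omega
    exact Nat.mul_pos h1 h2
  intro K _ p q P hP hn
  classical
  set f : K → K := fun z => p.eval z / q.eval z with hf
  have hfP : ∀ z ∈ P, f z ∈ P := fun z hz => (hP z hz).2
  have hmem : ∀ z ∈ P, ∀ j, f^[j] z ∈ P := by
    intro z hz j
    induction j with
    | zero => exact hz
    | succ j ih =>
      rw [Function.iterate_succ_apply']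
      exact hfP _ ih
  have hq : ∀ z ∈ P, ∀ j, q.eval (f^[j] z) ≠ 0 := fun z hz j => (hP _ (hmem z hz j)).1
  let β : K → K := fun z => (∏ j ∈ range n, q.eval (f^[j] z) ^
      (d ^ (n - j - 1) * (d ^ n.factorial - 1))) *
    ∏ j ∈ range n.factorial, q.eval (f^[n + j] z) ^ (d ^ (n.factorial - j - 1))
  refine ⟨fun z => if z ∈ P then β z else 1, fun z => ?_, fun z hz => ?_⟩
  · simp only
    split_ifs with h
    · refine mul_ne_zero ?_ ?_
      · exact Finset.prod_ne_zero_iff.2 fun j _ => pow_ne_zero _ (hq z h j)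
      · exact Finset.prod_ne_zero_iff.2 fun j _ => pow_ne_zero _ (hq z h (n + j))
    · exact one_ne_zero
  · have hfz : f z ∈ P := hfP z hz
    have e0 : p.eval z / q.eval z = f z := rfl
    simp only
    rw [if_pos hz, e0, if_pos hfz]
    have h1 := alg (fun j => q.eval (f^[j] z)) d n n.factorial (hq z hz) (by
      have := iter_per f P hfP z hz
      rw [hn] at this
      rw [this]) (by omega)
    have h2 : q.eval z ^ (d ^ n * (d ^ n.factorial - 1)) * β (f z) =
        q.eval (f^[0] z) ^ (d ^ n * (d ^ n.factorial - 1)) *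
          ((∏ j ∈ range n, q.eval (f^[j + 1] z) ^ (d ^ (n - j - 1) * (d ^ n.factorial - 1))) *
            ∏ j ∈ range n.factorial, q.eval (f^[n + j + 1] z) ^ (d ^ (n.factorial - j - 1))) := rfl
    rw [h2, ← h1]

end Pool.Agent.Q166.GT.Alp
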