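import Pool.Agent.Q41.GT.Stm1

/-!
# Project GT, job G4: the leading coefficient
-/

set_option autoImplicit false

namespace Pool.Agent.Q166.GT.Cff

open Finset FF
open Pool.Agent.Q41.GT
open Pool.Agent.W603.LV (Ge)

section

variable {k K : Type} [Field k] [Field K] [Algebra k K] (v : Place k K)

theorem ge_of_reg {x : K} (h : v.Reg x) : Ge v 0 x := h

theorem ge_pi {π : K} (h1 : v.ord π = 1) : Ge v 1 π := Or.inr h1.ge

theorem pow_coeff {π : K} (h1 : v.ord π = 1) (P : PowerSeries K)
    (hP : ∀ n, v.Reg (PowerSeries.coeff n P)) (hc : PowerSeries.constantCoeff P = π) (m : ℕ) :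
    ∀ r : ℕ, Ge v (max ((m : ℤ) - r) 0) (PowerSeries.coeff r (P ^ m)) := by
  induction m with
  | zero =>
    intro r
    rw [pow_zero, PowerSeries.coeff_one]
    have h2 : max (((0 : ℕ) : ℤ) - r) 0 = 0 := by
      rw [max_eq_right]
      push_cast
      omega
    rw [h2]
    split_ifs
    · exact Ge.one
    · exact Ge.zero
  | succ m ih =>
    intro r
    rw [pow_succ, PowerSeries.coeff_mul]
    refine Ge.sum _ _ fun p hp => ?_
    have hpr : p.1 + p.2 = r := Finset.HasAntidiagonal.mem_antidiagonal.1 hp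
    rcases Nat.eq_zero_or_pos p.2 with h2 | h2
    · have h3 : PowerSeries.coeff p.2 P = π := by
        rw [h2, PowerSeries.coeff_zero_eq_constantCoeff_apply, hc]
      rw [h3]
      have h4 := (ih p.1).mul (ge_pi v h1)
      refine h4.mono ?_
      push_cast
      omega
    · have h4 := (ih p.1).mul (ge_of_reg v (hP p.2))
      refine h4.mono ?_
      push_cast
      omega

theorem term_coeff {π : K} (h1 : v.ord π = 1) (P : PowerSeries K)
    (hP : ∀ n, v.Reg (PowerSeries.coeff n P)) (hc : PowerSeries.constantCoeff P = π)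
    (β : PowerSeries K) (hβ : ∀ i, v.Reg (PowerSeries.coeff i β)) (m n c : ℕ) :
    Ge v (max ((m : ℤ) - c) 0 + n) (PowerSeries.coeff c (β * P ^ m * PowerSeries.C π ^ n)) := by
  rw [← map_pow, PowerSeries.coeff_mul_C]
  have h2 : Ge v (max ((m : ℤ) - c) 0) (PowerSeries.coeff c (β * P ^ m)) := by
    rw [PowerSeries.coeff_mul]
    refine Ge.sum _ _ fun p hp => ?_
    have hpr : p.1 + p.2 = c := Finset.HasAntidiagonal.mem_antidiagonal.1 hp
    have h4 := (ge_of_reg v (hβ p.1)).mul (pow_coeff v h1 P hP hc m p.2)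
    refine h4.mono ?_
    omega
  have h3 := (ge_pi v h1).pow n
  have h4 := h2.mul h3
  rwa [mul_one] at h4

end

theorem t_cff : S_cff := by
  intro k K _ _ _ v π P V H W c J h1 hJ hP hc S _ β m n hβ hmn hX hne
  have h0 : π ≠ 0 := by
    intro h
    rw [h, v.ord_zero] at h1
    exact zero_ne_one h1
  set B' : PowerSeries K := ∑ s, β s * P ^ (m s - V) * PowerSeries.C π ^ (n s - H) with hB'
  set U : PowerSeries K := P ^ V * PowerSeries.C π ^ H with hU
  have hB : ∑ s, β s * P ^ m s * PowerSeries.C π ^ n s = U * B' := by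
    rw [hB', Finset.mul_sum]
    refine Finset.sum_congr rfl fun s _ => ?_
    obtain ⟨g1, g2, -⟩ := hmn s
    have e1 : P ^ m s = P ^ V * P ^ (m s - V) := by rw [← pow_add]; congr 1; omega
    have e2 : PowerSeries.C π ^ n s = PowerSeries.C π ^ H * PowerSeries.C π ^ (n s - H) := by
      rw [← pow_add]; congr 1; omega
    rw [e1, e2, hU]
    ring
  have hUc : PowerSeries.constantCoeff U = π ^ (V + H) := by
    rw [hU, map_mul, map_pow, map_pow, hc, PowerSeries.constantCoeff_C, ← pow_add]
  have hUu : IsUnit U := by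
    rw [PowerSeries.isUnit_iff_constantCoeff, hUc]
    exact (pow_ne_zero _ h0).isUnit
  rw [hB] at hX hne ⊢
  have hX' : (PowerSeries.X : PowerSeries K) ^ c ∣ B' := (hUu.dvd_mul_left).1 hX
  obtain ⟨E, hE⟩ := hX'
  have hcB : PowerSeries.coeff c (U * B') = π ^ (V + H) * PowerSeries.coeff c B' := by
    have e1 : U * B' = (PowerSeries.X : PowerSeries K) ^ c * (U * E) := by
      rw [hE]; ring
    have e2 : PowerSeries.coeff c (U * B') = PowerSeries.constantCoeff (U * E) := by
      rw [e1]
      have := PowerSeries.coeff_X_pow_mul (U * E) c 0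
      rw [zero_add] at this
      rw [this, PowerSeries.coeff_zero_eq_constantCoeff_apply]
    have e3 : PowerSeries.coeff c B' = PowerSeries.constantCoeff E := by
      rw [hE]
      have := PowerSeries.coeff_X_pow_mul E c 0
      rw [zero_add] at this
      rw [this, PowerSeries.coeff_zero_eq_constantCoeff_apply]
    rw [e2, e3, map_mul, hUc]
  have hne' : PowerSeries.coeff c B' ≠ 0 := by
    intro h
    rw [hcB, h, mul_zero] at hne
    exact hne rfl
  have hord : v.ord (PowerSeries.coeff c (U * B')) =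
      ((V : ℤ) + H) + v.ord (PowerSeries.coeff c B') := by
    rw [hcB, v.ord_mul (pow_ne_zero _ h0) hne', v.ord_pow, h1]
    push_cast
    ring
  have hterm : ∀ s, Ge v (max (((m s - V : ℕ) : ℤ) - c) 0 + (n s - H : ℕ))
      (PowerSeries.coeff c (β s * P ^ (m s - V) * PowerSeries.C π ^ (n s - H))) := fun s =>
    term_coeff v h1 P hP hc (β s) (hβ s) _ _ c
  have hreg : 0 ≤ v.ord (PowerSeries.coeff c B') := by
    have h2 : Ge v 0 (PowerSeries.coeff c B') := by
      rw [hB', map_sum]
      refine Ge.sum _ _ fun s _ => (hterm s).mono ?_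
      positivity
    rcases h2 with h3 | h3
    · exact absurd h3 hne'
    · exact h3
  rw [hord]
  refine ⟨by omega, ?_⟩
  by_contra hcon
  rw [not_le] at hcon
  set o := v.ord (PowerSeries.coeff c B') with ho
  have hJ0 : (0 : ℤ) < J := by exact_mod_cast hJ
  have hJ1 : (1 : ℤ) ≤ J := by exact_mod_cast hJ
  have h2 : Ge v (o + 1) (PowerSeries.coeff c B') := by
    rw [hB', map_sum]
    refine Ge.sum _ _ fun s _ => (hterm s).mono ?_
    obtain ⟨g1, g2, g3⟩ := hmn s
    set a : ℤ := max (((m s - V : ℕ) : ℤ) - c) 0 with ha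
    have ha0 : 0 ≤ a := le_max_right _ _
    have ha1 : ((m s - V : ℕ) : ℤ) - c ≤ a := le_max_left _ _
    have e1 : ((m s - V : ℕ) : ℤ) = (m s : ℤ) - V := by omega
    have e2 : ((n s - H : ℕ) : ℤ) = (n s : ℤ) - H := by omega
    have g3' : (W : ℤ) ≤ m s + J * n s := by exact_mod_cast g3
    rw [e1] at ha1
    rw [e2]
    by_contra h3
    rw [not_le] at h3
    have h4 : a + ((n s : ℤ) - H) ≤ o := by omega
    have h5 : (J : ℤ) * (a + ((n s : ℤ) - H)) ≤ J * o := mul_le_mul_of_nonneg_left h4 hJ0.le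
    have h6 : a ≤ (J : ℤ) * a := by nlinarith
    nlinarith
  rcases h2 with h3 | h3
  · exact hne' h3
  · omega

end Pool.Agent.Q166.GT.Cff
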