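import Pool.Agent.Q41.GT.Stm3

/-!
# Project GT, job K3: orders of coefficients from orders of values
-/

set_option autoImplicit false

namespace Pool.Agent.Q166.GT.Cof

open Finset FF
open Pool.Agent.Q41.GT
open Pool.Agent.W603.LV (Ge)

theorem one_var {k K : Type} [Field k] [Infinite k] [Field K] [Algebra k K] (v : Place k K)
    (n : ℤ) (D : ℕ) : ∀ (S : Finset k) (g : Polynomial K), g.degree < (D : WithBot ℕ) →
      (∀ y, y ∉ S → Ge v n (g.eval (algebraMap k K y))) → ∀ i, Ge v n (g.coeff i) := by
  classical
  induction D with
  | zero =>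
    intro S g hg _ i
    have : g = 0 := by
      rw [← Polynomial.degree_eq_bot]
      rw [Nat.cast_zero] at hg
      exact Nat.WithBot.lt_zero_iff.1 hg
    rw [this, Polynomial.coeff_zero]
    exact Ge.zero
  | succ D ih =>
    intro S g hg h i
    by_cases hg0 : g = 0
    · rw [hg0, Polynomial.coeff_zero]
      exact Ge.zero
    obtain ⟨y0, hy0⟩ := Infinite.exists_notMem_finset S
    set a := algebraMap k K y0 with ha
    set q := g /ₘ (Polynomial.X - Polynomial.C a) with hq
    have hgq : g = Polynomial.C (g.eval a) + (Polynomial.X - Polynomial.C a) * q := by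
      have h1 := Polynomial.modByMonic_add_div g (Polynomial.X - Polynomial.C a)
      rw [Polynomial.modByMonic_X_sub_C_eq_C_eval] at h1
      exact h1.symm
    have hdeg : q.degree < (D : WithBot ℕ) := by
      have h1 : q.degree < g.degree :=
        Polynomial.degree_divByMonic_lt g (Polynomial.X - Polynomial.C a) hg0 (by
          rw [Polynomial.degree_X_sub_C]
          exact zero_lt_one)
      have h2 : g.degree ≤ (D : WithBot ℕ) := by
        rw [Polynomial.degree_eq_natDegree hg0] at hg ⊢
        have h3 : g.natDegree < D + 1 := by exact_mod_cast hg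
        exact_mod_cast Nat.lt_succ_iff.1 h3
      exact lt_of_lt_of_le h1 h2
    have hqv : ∀ y, y ∉ insert y0 S → Ge v n (q.eval (algebraMap k K y)) := by
      intro y hy
      rw [Finset.mem_insert, not_or] at hy
      have h1 : y - y0 ≠ 0 := sub_ne_zero.2 hy.1
      have h2 : algebraMap k K (y - y0) ≠ 0 := by
        rw [Ne, map_eq_zero]
        exact h1
      refine Ge.of_mul' (m := 0) h2 (v.ord_const h1) ?_
      rw [add_zero]
      have e : g.eval (algebraMap k K y) = g.eval a +
          (algebraMap k K y - a) * q.eval (algebraMap k K y) := by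
        conv_lhs => rw [hgq]
        rw [Polynomial.eval_add, Polynomial.eval_C, Polynomial.eval_mul, Polynomial.eval_sub,
          Polynomial.eval_X, Polynomial.eval_C]
      have h3 : algebraMap k K (y - y0) * q.eval (algebraMap k K y) =
          g.eval (algebraMap k K y) - g.eval a := by
        rw [map_sub, e]
        ring
      rw [h3]
      exact (h y hy.2).sub (h y0 hy0)
    have hco := ih (insert y0 S) q hdeg hqv
    rw [hgq, Polynomial.coeff_add, sub_mul, Polynomial.coeff_sub, Polynomial.coeff_C_mul]
    refine Ge.add ?_ (Ge.sub ?_ ?_)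
    · rw [Polynomial.coeff_C]
      split_ifs
      · exact h y0 hy0
      · exact Ge.zero
    · rcases Nat.eq_zero_or_pos i with h1 | h1
      · rw [h1, Polynomial.mul_coeff_zero, Polynomial.coeff_X_zero, zero_mul]
        exact Ge.zero
      · obtain ⟨j, rfl⟩ := Nat.exists_eq_add_of_le' h1
        rw [Polynomial.coeff_X_mul]
        exact hco j
    · have h1 := (Ge.const (P := v) y0).mul (hco i)
      rwa [zero_add] at h1

theorem t_cof : S_cof := by
  intro k K _ _ _ _ v w
  induction w with
  | zero =>
    intro Q n h γ
    have h1 := h Fin.elim0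
    have h2 : Q = MvPolynomial.C (Q.coeff 0) := by
      rw [MvPolynomial.eq_C_of_isEmpty Q]
      simp
    rw [h2, MvPolynomial.eval_C] at h1
    have h3 : γ = 0 := Subsingleton.elim _ _
    rw [h3]
    exact h1
  | succ w ih =>
    intro Q n h γ
    have key : ∀ i, ∀ c : Fin w → k, Ge v n (MvPolynomial.eval (fun j => algebraMap k K (c j))
        ((MvPolynomial.finSuccEquiv K w Q).coeff i)) := by
      intro i c
      set g : Polynomial K := Polynomial.map (MvPolynomial.eval fun j => algebraMap k K (c j))
        (MvPolynomial.finSuccEquiv K w Q) with hg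
      have h1 : ∀ y : k, Ge v n (g.eval (algebraMap k K y)) := by
        intro y
        have h2 := h (Fin.cons y c)
        have h3 : (fun i => algebraMap k K ((Fin.cons y c : Fin (w + 1) → k) i)) =
            Fin.cons (algebraMap k K y) (fun j => algebraMap k K (c j)) := by
          funext i
          refine Fin.cases ?_ (fun j => ?_) i
          · rfl
          · rfl
        rw [h3, MvPolynomial.eval_eq_eval_mv_eval'] at h2
        exact h2
      have h4 := one_var v n (g.natDegree + 1) ∅ g (by
        by_cases hg0 : g = 0
        · rw [hg0, Polynomial.degree_zero]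
          exact WithBot.bot_lt_coe _
        · rw [Polynomial.degree_eq_natDegree hg0]
          exact_mod_cast Nat.lt_succ_self _) (fun y _ => h1 y) i
      rw [hg, Polynomial.coeff_map] at h4
      exact h4
    have h5 := ih ((MvPolynomial.finSuccEquiv K w Q).coeff (γ 0)) n (key (γ 0)) γ.tail
    rw [MvPolynomial.finSuccEquiv_coeff_coeff, Finsupp.cons_tail] at h5
    exact h5

end Pool.Agent.Q166.GT.Cof
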