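import Pool.Agent.Q41.GT.Stm1

/-!
# Project GT, job G2: digits at a place
-/

set_option autoImplicit false

namespace Pool.Agent.Q166.GT.Dgt

open Finset FF
open Pool.Agent.Q41.GT

section

variable {k K : Type} [Field k] [Field K] [Algebra k K] (v : Place k K)

/-- representatives of the residue classes -/
noncomputable def rp (x : K) : K := (v.red_surjective (v.red x)).choose

theorem rp_reg (x : K) : v.Reg (rp v x) := (v.red_surjective (v.red x)).choose_spec.1

theorem rp_red (x : K) : v.red (rp v x) = v.red x := (v.red_surjective (v.red x)).choose_spec.2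

theorem rp_congr {x y : K} (h : v.red x = v.red y) : rp v x = rp v y := by
  unfold rp
  congr 1
  rw [h]

theorem reg_sub {x y : K} (hx : v.Reg x) (hy : v.Reg y) : v.Reg (x - y) := by
  rw [sub_eq_add_neg]
  exact v.reg_add hx (v.reg_neg hy)

theorem sub_rp {x : K} (hx : v.Reg x) : x - rp v x = 0 ∨ 0 < v.ord (x - rp v x) := by
  have h1 : v.red (x - rp v x) = 0 := by
    rw [v.red_sub hx (rp_reg v x), rp_red, sub_self]
  exact (v.red_eq_zero_iff (reg_sub v hx (rp_reg v x))).1 h1

/-- the remainder -/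
noncomputable def rm (π x : K) : K := (x - rp v x) / π

theorem eq_rm {π : K} (h0 : π ≠ 0) (x : K) : x = rp v x + π * rm v π x := by
  unfold rm
  field_simp
  ring

theorem rm_reg {π : K} (h0 : π ≠ 0) (h1 : v.ord π = 1) {x : K} (hx : v.Reg x) :
    v.Reg (rm v π x) := by
  unfold rm
  rcases sub_rp v hx with h | h
  · rw [h, zero_div]
    exact v.reg_zero
  · have hne : x - rp v x ≠ 0 := by
      intro h2
      rw [h2, v.ord_zero] at h
      exact lt_irrefl _ h
    right
    rw [v.ord_div hne h0, h1]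
    omega

theorem it_reg {π : K} (h0 : π ≠ 0) (h1 : v.ord π = 1) {x : K} (hx : v.Reg x) (n : ℕ) :
    v.Reg ((rm v π)^[n] x) := by
  induction n with
  | zero => exact hx
  | succ n ih =>
    rw [Function.iterate_succ_apply']
    exact rm_reg v h0 h1 ih

theorem it_eq {π : K} (h0 : π ≠ 0) (x : K) (n : ℕ) :
    x = ∑ j ∈ range n, rp v ((rm v π)^[j] x) * π ^ j + π ^ n * (rm v π)^[n] x := by
  induction n with
  | zero => simp
  | succ n ih =>
    rw [Finset.sum_range_succ, Function.iterate_succ_apply']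
    have h2 := eq_rm v h0 ((rm v π)^[n] x)
    calc x = ∑ j ∈ range n, rp v ((rm v π)^[j] x) * π ^ j + π ^ n * (rm v π)^[n] x := ih
      _ = ∑ j ∈ range n, rp v ((rm v π)^[j] x) * π ^ j + π ^ n *
          (rp v ((rm v π)^[n] x) + π * rm v π ((rm v π)^[n] x)) := by rw [← h2]
      _ = _ := by ring

theorem diff_eq {π : K} (h0 : π ≠ 0) {x y : K} {i : ℕ}
    (h : ∀ j < i, rp v ((rm v π)^[j] x) = rp v ((rm v π)^[j] y)) :
    x - y = π ^ i * ((rm v π)^[i] x - (rm v π)^[i] y) := by
  have h1 := it_eq v h0 x i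
  have h2 := it_eq v h0 y i
  have h3 : ∑ j ∈ range i, rp v ((rm v π)^[j] x) * π ^ j =
      ∑ j ∈ range i, rp v ((rm v π)^[j] y) * π ^ j :=
    sum_congr rfl fun j hj => by rw [h j (mem_range.1 hj)]
  calc x - y = (∑ j ∈ range i, rp v ((rm v π)^[j] x) * π ^ j + π ^ i * (rm v π)^[i] x) -
        (∑ j ∈ range i, rp v ((rm v π)^[j] y) * π ^ j + π ^ i * (rm v π)^[i] y) := by
          rw [← h1, ← h2]
    _ = _ := by rw [h3]; ring

theorem ord_diff {π : K} (h0 : π ≠ 0) (h1 : v.ord π = 1) {x y : K} (hxy : x ≠ y) {i : ℕ}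
    (h : ∀ j < i, rp v ((rm v π)^[j] x) = rp v ((rm v π)^[j] y)) :
    (rm v π)^[i] x - (rm v π)^[i] y ≠ 0 ∧
      v.ord (x - y) = i + v.ord ((rm v π)^[i] x - (rm v π)^[i] y) := by
  have h2 := diff_eq v h0 h
  have hne : (rm v π)^[i] x - (rm v π)^[i] y ≠ 0 := by
    intro h3
    rw [h3, mul_zero] at h2
    exact hxy (sub_eq_zero.1 h2)
  refine ⟨hne, ?_⟩
  rw [h2, v.ord_mul (pow_ne_zero _ h0) hne, v.ord_pow, h1, mul_one]

end

theorem t_dgt : S_dgt := by
  intro k K _ _ _ v J _ z hz hreg M
  obtain ⟨π, h0, h1⟩ := v.surj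
  refine ⟨π, fun i l => rp v ((rm v π)^[i] (z l)), fun l => (rm v π)^[M] (z l), h1,
    fun i l => rp_reg v _, fun l => it_reg v h0 h1 (hreg l) M, fun l => it_eq v h0 (z l) M,
    fun i _ l m => ?_⟩
  constructor
  · intro h
    by_cases hlm : m = l
    · exact Or.inl hlm
    · right
      obtain ⟨h2, h3⟩ := ord_diff v h0 h1 (x := z l) (y := z m)
        (fun h' => hlm (hz h').symm) (i := i) (fun j hj => (h j hj).symm)
      have h4 := (v.reg_iff h2).1 (reg_sub v (it_reg v h0 h1 (hreg l) i)
        (it_reg v h0 h1 (hreg m) i))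
      omega
  · rintro (rfl | h)
    · intro j _
      rfl
    · by_cases hlm : m = l
      · subst hlm
        intro j _
        rfl
      have key : ∀ n ≤ i, ∀ j < n, rp v ((rm v π)^[j] (z l)) = rp v ((rm v π)^[j] (z m)) := by
        intro n
        induction n with
        | zero => intro _ j hj; omega
        | succ n ih =>
          intro hn j hj
          rcases Nat.lt_succ_iff_lt_or_eq.1 hj with hj | rfl
          · exact ih (by omega) j hj
          · obtain ⟨h2, h3⟩ := ord_diff v h0 h1 (x := z l) (y := z m)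
              (fun h' => hlm (hz h').symm) (i := j) (ih (by omega))
            refine rp_congr v ?_
            have h4 : v.red ((rm v π)^[j] (z l) - (rm v π)^[j] (z m)) = 0 := by
              refine (v.red_eq_zero_iff (reg_sub v (it_reg v h0 h1 (hreg l) j)
                (it_reg v h0 h1 (hreg m) j))).2 (Or.inr ?_)
              omega
            rw [v.red_sub (it_reg v h0 h1 (hreg l) j) (it_reg v h0 h1 (hreg m) j)] at h4
            exact sub_eq_zero.1 h4
      exact fun j hj => (key i le_rfl j hj).symm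

end Pool.Agent.Q166.GT.Dgt
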