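import Pool.Agent.Q41.GT.Stm1
import Pool.Agent.Q58.SU.Tay

/-!
# Project GT, job G3: the Taylor homomorphism of a derivation
-/

set_option autoImplicit false

namespace Pool.Agent.Q166.GT

open Finset FF
open Pool.Agent.W602.GT Pool.Agent.Q41.GT Pool.Agent.Q41.SU Pool.Agent.Q58.SU

theorem t_tyr : S_tyr := by
  intro k K _ _ _ _ D
  have : CharZero K := charE k K
  have hc : ∀ (x : K) (n : ℕ), PowerSeries.coeff n (tay D x) = dv D n x := by
    intro x n
    simp [tay, dv]
  have h0 : ∀ m : ℕ, (D^[m]) (0 : K) = 0 := by
    intro m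
    induction m with
    | zero => rfl
    | succ m ih => rw [Function.iterate_succ_apply, map_zero, ih]
  have halg : ∀ (r : k) (n : ℕ), dv D n (algebraMap k K r) =
      PowerSeries.coeff n (algebraMap k (PowerSeries K) r) := by
    intro r n
    rw [PowerSeries.algebraMap_apply, PowerSeries.coeff_C]
    rcases Nat.eq_zero_or_pos n with rfl | hn
    · simp [dv]
    · rw [if_neg hn.ne']
      obtain ⟨m, rfl⟩ := Nat.exists_eq_succ_of_ne_zero hn.ne'
      simp [dv, Function.iterate_succ_apply, h0]
  refine ⟨{
    toFun := tay D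
    map_one' := ?_
    map_mul' := ?_
    map_zero' := ?_
    map_add' := ?_
    commutes' := ?_ }, fun x => rfl, ?_⟩
  · ext n
    have := halg 1 n
    rw [hc, ← map_one (algebraMap k K), this]
    simp
  · intro x y
    ext n
    rw [hc, PowerSeries.coeff_mul, dv_mul]
    simp [hc]
  · ext n
    have := halg 0 n
    rw [hc, ← map_zero (algebraMap k K), this]
    simp
  · intro x y
    ext n
    rw [hc, map_add, hc, hc, dv_add]
  · intro r
    ext n
    rw [hc, halg]
  · intro v hD x hx n
    change v.Reg (PowerSeries.coeff n (tay D x))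
    rw [hc]
    unfold dv
    have h1 : ∀ m : ℕ, v.Reg ((D^[m]) x) := by
      intro m
      induction m with
      | zero => exact hx
      | succ m ih =>
        rw [Function.iterate_succ_apply']
        exact hD _ ih
    have h2 : ((n.factorial : K))⁻¹ = algebraMap k K ((n.factorial : k)⁻¹) := by
      rw [map_inv₀, map_natCast]
    rw [h2]
    exact v.reg_mul (v.reg_const _) (h1 n)

end Pool.Agent.Q166.GT
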